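import Mathlib
import Pool.Agent.V11307.GF

set_option autoImplicit false
set_option linter.unusedSectionVars false

/-!
# Affinely equivalent generalized Bose sets that are not trivially equivalent

For `q = 3` and `h = 6` there are admissible `b, e` such that `Bose_6(3, b)` and `Bose_6(3, e)` are
affinely equivalent although `b` and `e` are not related by the equivalence relation generated by
the conditions (i), (ii), (iii).
-/

namespace Pool.Agent.Results.MP_50e481_nt.BoseFalse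

section Defs

variable (F K : Type) [Field F] [Field K] [Algebra F K]

/-- `θ` generates the multiplicative group of `K`. -/
def IsGen (θ : K) : Prop := θ ≠ 0 ∧ ∀ x : K, x ≠ 0 → ∃ n : ℕ, x = θ ^ n

/-- `b` is admissible: `θ ^ b` has degree `h` over `F`. -/
def Admissible (θ : K) (h M : ℕ) (b : ZMod M) : Prop :=
  (minpoly F (θ ^ b.val)).natDegree = h

/-- The Bose set: all `a` in `ℤ/M` with `θ ^ a = θ ^ b + v` for some `v ∈ F`. -/
def Bose (θ : K) (M : ℕ) (b : ZMod M) : Set (ZMod M) :=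
  {a | ∃ v : F, θ ^ a.val = θ ^ b.val + algebraMap F K v}

/-- Affine equivalence of subsets of `ℤ/M`: `A₂ = d A₁ + s` with `d` a unit of `ℤ/M`. -/
def AffEquiv (M : ℕ) (A₁ A₂ : Set (ZMod M)) : Prop :=
  ∃ (d : (ZMod M)ˣ) (s : ZMod M), A₂ = {x | ∃ a ∈ A₁, x = d * a + s}

/-- One of the conditions (i), (ii), (iii) of the problem holds for the admissible `b`, `e`:
(i) `b ≡ e` modulo `(q^h - 1)/(q - 1)`; (ii) `θ^b - θ^e ∈ F`; (iii) `b ≡ p^i e` modulo `q^h - 1`
for some `i ≥ 0`, where `p` is the characteristic of `F`. -/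
def Step (θ : K) (q h : ℕ) (b e : ZMod (q ^ h - 1)) : Prop :=
  Admissible F K θ h (q ^ h - 1) b ∧ Admissible F K θ h (q ^ h - 1) e ∧
  (b.val ≡ e.val [MOD (q ^ h - 1) / (q - 1)] ∨
    (∃ v : F, θ ^ b.val - θ ^ e.val = algebraMap F K v) ∨
    ∃ i : ℕ, b = (ringChar F : ZMod (q ^ h - 1)) ^ i * e)

end Defs

/-- The statement of Q1 for the pair `(h, q)`: for every field `F` with `q` elements, every
extension field `K` with `q ^ h` elements, every generator `θ` of the multiplicative group of `K`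
and all admissible `b`, `e`, if the Bose sets of `b` and `e` are affinely equivalent, then
`b` and `e` are related by the equivalence relation generated by (i), (ii), (iii). -/
def BoseStatement (h q : ℕ) : Prop :=
  ∀ (F K : Type) [Field F] [Field K] [Algebra F K], Nat.card F = q → Nat.card K = q ^ h →
    ∀ θ : K, IsGen K θ → ∀ b e : ZMod (q ^ h - 1),
      Admissible F K θ h (q ^ h - 1) b → Admissible F K θ h (q ^ h - 1) e →
      AffEquiv (q ^ h - 1) (Bose F K θ (q ^ h - 1) b) (Bose F K θ (q ^ h - 1) e) →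
      Relation.EqvGen (Step F K θ q h) b e

/-! ### The field with 729 elements -/

/-- multiplication by `x` on residues modulo `x^6 - x^5 - 1`, coded in base 3 -/
def st (n : ℕ) : ℕ :=
  n / 243 + 3 * (n % 81) + 243 * ((n / 81 % 3 + n / 243) % 3)

def pw : ℕ → ℕ
  | 0 => 1
  | k + 1 => st (pw k)

section

variable {K : Type} [Field K] [CharP K 3] (θ : K)

def ev (n : ℕ) : K :=
  ((n % 3 : ℕ) : K) + ((n / 3 % 3 : ℕ) : K) * θ + ((n / 9 % 3 : ℕ) : K) * θ ^ 2 +
    ((n / 27 % 3 : ℕ) : K) * θ ^ 3 + ((n / 81 % 3 : ℕ) : K) * θ ^ 4 +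
    ((n / 243 % 3 : ℕ) : K) * θ ^ 5

omit [CharP K 3] in
lemma cast_mod [CharP K 3] (m : ℕ) : ((m % 3 : ℕ) : K) = (m : K) := by
  conv_rhs => rw [← Nat.mod_add_div m 3]
  have h3 : ((3 : ℕ) : K) = 0 := CharP.cast_eq_zero K 3
  push_cast
  push_cast at h3
  rw [h3]; ring

lemma digs : ∀ n < 729, st n % 3 = n / 243 % 3 ∧ st n / 3 % 3 = n % 3 ∧ st n / 9 % 3 = n / 3 % 3 ∧
    st n / 27 % 3 = n / 9 % 3 ∧ st n / 81 % 3 = n / 27 % 3 ∧
    st n / 243 % 3 = (n / 81 % 3 + n / 243 % 3) % 3 := by decide +kernel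

lemma st_lt (n : ℕ) (hn : n < 729) : st n < 729 := by unfold st; omega

lemma pw_lt (k : ℕ) : pw k < 729 := by
  induction k with
  | zero => simp [pw]
  | succ k ih => exact st_lt _ ih

lemma ev_st (hθ : θ ^ 6 = 1 + θ ^ 5) (n : ℕ) (hn : n < 729) : ev θ (st n) = θ * ev θ n := by
  obtain ⟨d0, d1, d2, d3, d4, d5⟩ := digs n hn
  unfold ev
  rw [d0, d1, d2, d3, d4, d5, cast_mod (n / 81 % 3 + n / 243 % 3)]
  push_cast
  linear_combination (-((n / 243 % 3 : ℕ) : K)) * hθ

lemma ev_pw (hθ : θ ^ 6 = 1 + θ ^ 5) (k : ℕ) : θ ^ k = ev θ (pw k) := by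
  induction k with
  | zero => simp [pw, ev]
  | succ k ih => rw [pow_succ, mul_comm, ih, pw, ev_st θ hθ _ (pw_lt k)]

lemma ev_of {k c : ℕ} (hθ : θ ^ 6 = 1 + θ ^ 5) (h : pw k = c) : θ ^ k = ev θ c := by
  rw [ev_pw θ hθ, h]

end

section

variable {K : Type} [Field K] [CharP K 3] {θ : K}

lemma pow728 (hθ : θ ^ 6 = 1 + θ ^ 5) : θ ^ 728 = 1 := by
  rw [ev_of θ hθ (show pw 728 = 1 by decide +kernel)]; norm_num [ev]

lemma two_ne : (2 : K) ≠ 0 := by
  intro h
  have h3 : ((3 : ℕ) : K) = 0 := CharP.cast_eq_zero K 3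
  push_cast at h3
  exact one_ne_zero (α := K) (by linear_combination h3 - h)

lemma three : (3 : K) = 0 := by
  have h3 : ((3 : ℕ) : K) = 0 := CharP.cast_eq_zero K 3
  exact_mod_cast h3

lemma pow364 (hθ : θ ^ 6 = 1 + θ ^ 5) : θ ^ 364 = -1 := by
  rw [ev_of θ hθ (show pw 364 = 2 by decide +kernel)]
  have := three (K := K)
  norm_num [ev]
  linear_combination this

lemma h163 (hθ : θ ^ 6 = 1 + θ ^ 5) :
    θ ^ 163 = 1 + 2 * θ + θ ^ 2 + 2 * θ ^ 3 + θ ^ 5 := by
  rw [ev_of θ hθ (show pw 163 = 313 by decide +kernel)]; norm_num [ev]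

lemma h434 (hθ : θ ^ 6 = 1 + θ ^ 5) : θ ^ 434 = θ ^ 163 + 1 := by
  rw [h163 hθ, ev_of θ hθ (show pw 434 = 314 by decide +kernel)]; norm_num [ev]; ring

lemma h397 (hθ : θ ^ 6 = 1 + θ ^ 5) : θ ^ 397 = θ ^ 163 + 2 := by
  rw [h163 hθ, ev_of θ hθ (show pw 397 = 312 by decide +kernel)]
  have := three (K := K)
  norm_num [ev]
  linear_combination -this

lemma h253 (hθ : θ ^ 6 = 1 + θ ^ 5) :
    θ ^ 253 = 2 * θ ^ 2 + 2 * θ ^ 3 + θ ^ 4 + θ ^ 5 := by
  rw [ev_of θ hθ (show pw 253 = 396 by decide +kernel)]; norm_num [ev]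

lemma h518 (hθ : θ ^ 6 = 1 + θ ^ 5) : θ ^ 518 = θ ^ 253 + 1 := by
  rw [h253 hθ, ev_of θ hθ (show pw 518 = 397 by decide +kernel)]; norm_num [ev]; ring

lemma h643 (hθ : θ ^ 6 = 1 + θ ^ 5) : θ ^ 643 = θ ^ 253 + 2 := by
  rw [h253 hθ, ev_of θ hθ (show pw 643 = 398 by decide +kernel)]; norm_num [ev]; ring

lemma theta_ne (hθ : θ ^ 6 = 1 + θ ^ 5) : θ ≠ 0 := by
  rintro rfl
  norm_num at hθ

lemma h104 (hθ : θ ^ 6 = 1 + θ ^ 5) : θ ^ 104 = 1 + θ ^ 150 := by
  rw [ev_of θ hθ (show pw 104 = 315 by decide +kernel),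
    ev_of θ hθ (show pw 150 = 317 by decide +kernel)]
  have := three (K := K)
  norm_num [ev]
  linear_combination -this

lemma h56 (hθ : θ ^ 6 = 1 + θ ^ 5) : θ ^ 56 = 1 + θ ^ 336 := by
  rw [ev_of θ hθ (show pw 56 = 258 by decide +kernel),
    ev_of θ hθ (show pw 336 = 260 by decide +kernel)]
  have := three (K := K)
  norm_num [ev]
  linear_combination -this

lemma order (hθ : θ ^ 6 = 1 + θ ^ 5) : orderOf θ = 728 := by
  apply orderOf_eq_of_pow_and_pow_div_prime (by norm_num) (pow728 hθ)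
  intro p hp hd
  have h0 := theta_ne hθ
  have : p ∈ Nat.primeFactors 728 := Nat.mem_primeFactors.2 ⟨hp, hd, by norm_num⟩
  have hpf : Nat.primeFactors 728 = {2, 7, 13} := by decide +kernel
  rw [hpf] at this
  simp only [Finset.mem_insert, Finset.mem_singleton] at this
  rcases this with rfl | rfl | rfl
  · norm_num
    rw [pow364 hθ]
    intro h
    exact two_ne (K := K) (by linear_combination -h)
  · norm_num
    rw [h104 hθ]
    intro h
    exact pow_ne_zero 150 h0 (by linear_combination h)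
  · norm_num
    rw [h56 hθ]
    intro h
    exact pow_ne_zero 336 h0 (by linear_combination h)

end

/-- there is a suitable `θ` in the field with 729 elements -/
lemma exists_theta (K : Type) [Field K] [Fintype K] [CharP K 3] (hK : Fintype.card K = 729) :
    ∃ θ : K, θ ^ 6 = 1 + θ ^ 5 := by
  have hL : CharP (AlgebraicClosure K) 3 := charP_of_injective_algebraMap
    (algebraMap K (AlgebraicClosure K)).injective 3
  obtain ⟨x, hx⟩ := IsAlgClosed.exists_root
    (Polynomial.X ^ 6 - Polynomial.X ^ 5 - 1 : Polynomial (AlgebraicClosure K)) (by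
      have : (Polynomial.X ^ 6 - Polynomial.X ^ 5 - 1 : Polynomial (AlgebraicClosure K)).degree
        = 6 := by compute_degree!
      rw [this]; norm_num)
  rw [Polynomial.IsRoot.def] at hx
  simp only [Polynomial.eval_sub, Polynomial.eval_pow, Polynomial.eval_X,
    Polynomial.eval_one] at hx
  have hx' : x ^ 6 = 1 + x ^ 5 := by linear_combination hx
  obtain ⟨y, hy⟩ := Pool.Agent.V11307.GF.descend hK x (by
    rw [pow_succ, pow728 hx', one_mul])
  refine ⟨y, ?_⟩
  apply (algebraMap K (AlgebraicClosure K)).injective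
  rw [map_pow, map_add, map_pow, map_one, hy, hx']

/-! ### The counterexample -/

section

variable {K : Type} [Field K] [Algebra (ZMod 3) K] [CharP K 3] {θ : K}

lemma am1 : algebraMap (ZMod 3) K 1 = 1 := map_one _

lemma am2 : algebraMap (ZMod 3) K 2 = 2 := by
  have : (2 : ZMod 3) = 1 + 1 := by decide
  rw [this, map_add, map_one]; norm_num

lemma zero_one_two (v : ZMod 3) : v = 0 ∨ v = 1 ∨ v = 2 := by
  revert v; decide

lemma val_eq {a : ZMod 728} {n : ℕ} (hθ : θ ^ 6 = 1 + θ ^ 5) (hn : n < 728)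
    (h : θ ^ a.val = θ ^ n) : a = (n : ZMod 728) := by
  have h1 := Pool.Agent.V11307.GF.pow_inj (order hθ) (ZMod.val_lt a) hn h
  rw [← h1, ZMod.natCast_zmod_val]

lemma mem_one (hθ : θ ^ 6 = 1 + θ ^ 5) (a : ZMod 728) :
    a ∈ Bose (ZMod 3) K θ 728 163 ↔ a = 163 ∨ a = 434 ∨ a = 397 := by
  have hv : (163 : ZMod 728).val = 163 := rfl
  constructor
  · rintro ⟨v, hv'⟩
    rw [hv] at hv'
    rcases zero_one_two v with rfl | rfl | rfl
    · rw [map_zero, add_zero] at hv'
      exact Or.inl (val_eq hθ (by norm_num) hv')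
    · rw [am1, ← h434 hθ] at hv'
      exact Or.inr (Or.inl (val_eq hθ (by norm_num) hv'))
    · rw [am2, ← h397 hθ] at hv'
      exact Or.inr (Or.inr (val_eq hθ (by norm_num) hv'))
  · rintro (rfl | rfl | rfl)
    · exact ⟨0, by rw [map_zero, add_zero]⟩
    · refine ⟨1, ?_⟩
      rw [am1, hv, ← h434 hθ]; rfl
    · refine ⟨2, ?_⟩
      rw [am2, hv, ← h397 hθ]; rfl

lemma mem_two (hθ : θ ^ 6 = 1 + θ ^ 5) (a : ZMod 728) :
    a ∈ Bose (ZMod 3) K θ 728 253 ↔ a = 253 ∨ a = 518 ∨ a = 643 := by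
  have hv : (253 : ZMod 728).val = 253 := rfl
  constructor
  · rintro ⟨v, hv'⟩
    rw [hv] at hv'
    rcases zero_one_two v with rfl | rfl | rfl
    · rw [map_zero, add_zero] at hv'
      exact Or.inl (val_eq hθ (by norm_num) hv')
    · rw [am1, ← h518 hθ] at hv'
      exact Or.inr (Or.inl (val_eq hθ (by norm_num) hv'))
    · rw [am2, ← h643 hθ] at hv'
      exact Or.inr (Or.inr (val_eq hθ (by norm_num) hv'))
  · rintro (rfl | rfl | rfl)
    · exact ⟨0, by rw [map_zero, add_zero]⟩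
    · refine ⟨1, ?_⟩
      rw [am1, hv, ← h518 hθ]; rfl
    · refine ⟨2, ?_⟩
      rw [am2, hv, ← h643 hθ]; rfl

lemma aff (hθ : θ ^ 6 = 1 + θ ^ 5) :
    AffEquiv 728 (Bose (ZMod 3) K θ 728 163) (Bose (ZMod 3) K θ 728 253) := by
  refine ⟨ZMod.unitOfCoprime 95 (by norm_num), 56, ?_⟩
  ext x
  rw [mem_two hθ, Set.mem_ofPred_eq, ZMod.coe_unitOfCoprime]
  have e1 : ((95 : ℕ) : ZMod 728) * 163 + 56 = 253 := by decide
  have e2 : ((95 : ℕ) : ZMod 728) * 434 + 56 = 518 := by decide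
  have e3 : ((95 : ℕ) : ZMod 728) * 397 + 56 = 643 := by decide
  constructor
  · rintro (rfl | rfl | rfl)
    · exact ⟨163, (mem_one hθ _).2 (Or.inl rfl), e1.symm⟩
    · exact ⟨434, (mem_one hθ _).2 (Or.inr (Or.inl rfl)), e2.symm⟩
    · exact ⟨397, (mem_one hθ _).2 (Or.inr (Or.inr rfl)), e3.symm⟩
  · rintro ⟨a, ha, rfl⟩
    rcases (mem_one hθ _).1 ha with rfl | rfl | rfl
    · exact Or.inl e1
    · exact Or.inr (Or.inl e2)
    · exact Or.inr (Or.inr e3)

/-- the orbit of `θ ^ 163` under the maps `x ↦ u x + v` and the Frobenius map -/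
def Orb (θ : K) : Set K := {x | ∃ (i : ℕ) (s : K) (v : K), (s = 1 ∨ s = -1) ∧
  (v = 0 ∨ v = 1 ∨ v = 2) ∧ x = s * (θ ^ 163) ^ 3 ^ i + v}

lemma orb_neg {x : K} (h : x ∈ Orb θ) : -x ∈ Orb θ := by
  obtain ⟨i, s, v, hs, hv, rfl⟩ := h
  have h3 := three (K := K)
  rcases hv with rfl | rfl | rfl
  · refine ⟨i, -s, 0, ?_, Or.inl rfl, by ring⟩
    rcases hs with rfl | rfl
    · exact Or.inr rfl
    · exact Or.inl (by ring)
  · refine ⟨i, -s, 2, ?_, Or.inr (Or.inr rfl), by linear_combination -h3⟩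
    rcases hs with rfl | rfl
    · exact Or.inr rfl
    · exact Or.inl (by ring)
  · refine ⟨i, -s, 1, ?_, Or.inr (Or.inl rfl), by linear_combination -h3⟩
    rcases hs with rfl | rfl
    · exact Or.inr rfl
    · exact Or.inl (by ring)

lemma orb_add_one {x : K} (h : x ∈ Orb θ) : x + 1 ∈ Orb θ := by
  obtain ⟨i, s, v, hs, hv, rfl⟩ := h
  have h3 := three (K := K)
  rcases hv with rfl | rfl | rfl
  · exact ⟨i, s, 1, hs, Or.inr (Or.inl rfl), by ring⟩
  · exact ⟨i, s, 2, hs, Or.inr (Or.inr rfl), by ring⟩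
  · exact ⟨i, s, 0, hs, Or.inl rfl, by linear_combination h3⟩

lemma orb_add {x : K} (h : x ∈ Orb θ) (v : ZMod 3) : x + algebraMap (ZMod 3) K v ∈ Orb θ := by
  rcases zero_one_two v with rfl | rfl | rfl
  · rw [map_zero, add_zero]; exact h
  · rw [am1]; exact orb_add_one h
  · rw [am2]
    have := orb_add_one (orb_add_one h)
    rwa [show x + 1 + 1 = x + 2 by ring] at this

lemma orb_cube {x : K} (h : x ∈ Orb θ) : x ^ 3 ∈ Orb θ := by
  obtain ⟨i, s, v, hs, hv, rfl⟩ := h
  have hpr : Fact (Nat.Prime 3) := ⟨Nat.prime_three⟩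
  refine ⟨i + 1, s, v, hs, hv, ?_⟩
  rw [add_pow_char, mul_pow]
  have e1 : s ^ 3 = s := by rcases hs with rfl | rfl <;> ring
  have e2 : v ^ 3 = v := by
    have h3 := three (K := K)
    rcases hv with rfl | rfl | rfl
    · ring
    · ring
    · linear_combination 2 * h3
  rw [e1, e2, ← pow_mul, ← pow_succ]

lemma orb_pow {x : K} (h : x ∈ Orb θ) (i : ℕ) : x ^ 3 ^ i ∈ Orb θ := by
  induction i with
  | zero => simpa using h
  | succ i ih =>
    rw [pow_succ, pow_mul]
    exact orb_cube ih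

lemma orb_pow' {x : K} (hx : x ^ 729 = x) (i : ℕ) (h : x ^ 3 ^ i ∈ Orb θ) : x ∈ Orb θ := by
  have h1 := orb_pow h (5 * i)
  rw [← pow_mul, ← pow_add, show i + 5 * i = 6 * i by ring, pow_mul,
    show (3 ^ 6 : ℕ) = 729 by norm_num] at h1
  have h2 : ∀ j : ℕ, x ^ 729 ^ j = x := by
    intro j
    induction j with
    | zero => simp
    | succ j ih => rw [pow_succ, pow_mul, ih, hx]
  rwa [h2] at h1

lemma self_mem : θ ^ 163 ∈ Orb θ := ⟨0, 1, 0, Or.inl rfl, Or.inl rfl, by simp⟩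

lemma three_pow_mod (i : ℕ) : 3 ^ i % 728 = 1 ∨ 3 ^ i % 728 = 3 ∨ 3 ^ i % 728 = 9 ∨
    3 ^ i % 728 = 27 ∨ 3 ^ i % 728 = 81 ∨ 3 ^ i % 728 = 243 := by
  induction i with
  | zero => left; rfl
  | succ i ih => rw [pow_succ]; omega

lemma not_pow (hθ : θ ^ 6 = 1 + θ ^ 5) (i n : ℕ) (hn : n = 253 ∨ n = 518 ∨ n = 643)
    (s : K) (hs : s = 1 ∨ s = -1) : θ ^ n ≠ s * (θ ^ 163) ^ 3 ^ i := by
  intro h
  have h1 : ∃ j : ℕ, (j = 0 ∨ j = 364) ∧ θ ^ n = θ ^ (163 * 3 ^ i + j) := by
    rcases hs with rfl | rfl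
    · exact ⟨0, Or.inl rfl, by rw [h, one_mul, add_zero, pow_mul]⟩
    · exact ⟨364, Or.inr rfl, by rw [h, pow_add, pow364 hθ, pow_mul]; ring⟩
  obtain ⟨j, hj, h2⟩ := h1
  have h4 : n % 728 = (163 * 3 ^ i + j) % 728 :=
    (Pool.Agent.V11307.GF.pow_eq_iff (order hθ) (by norm_num) _ _).1 h2
  have h5 : (163 * 3 ^ i + j) % 728 = (163 * (3 ^ i % 728) + j) % 728 := by
    rw [Nat.add_mod, Nat.mul_mod]
    simp [Nat.add_mod]
  rw [h5] at h4
  rcases three_pow_mod i with h | h | h | h | h | h <;> rw [h] at h4 <;>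
    rcases hj with rfl | rfl <;> rcases hn with rfl | rfl | rfl <;> omega

lemma not_mem (hθ : θ ^ 6 = 1 + θ ^ 5) : θ ^ 253 ∉ Orb θ := by
  rintro ⟨i, s, v, hs, hv, h⟩
  have h3 := three (K := K)
  rcases hv with rfl | rfl | rfl
  · exact not_pow hθ i 253 (by norm_num) s hs (by rw [h, add_zero])
  · exact not_pow hθ i 643 (by norm_num) s hs (by
      rw [h643 hθ, h]; linear_combination h3)
  · exact not_pow hθ i 518 (by norm_num) s hs (by
      rw [h518 hθ, h]; linear_combination h3)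

lemma step_iff (hθ : θ ^ 6 = 1 + θ ^ 5) {b e : ZMod (3 ^ 6 - 1)}
    (h : Step (ZMod 3) K θ 3 6 b e) : θ ^ b.val ∈ Orb θ ↔ θ ^ e.val ∈ Orb θ := by
  have h728 := pow728 hθ
  have hbv : b.val < 728 := ZMod.val_lt (n := 728) b
  have hev : e.val < 728 := ZMod.val_lt (n := 728) e
  obtain ⟨-, -, h1 | ⟨v, hv⟩ | ⟨i, hi⟩⟩ := h
  · have h2 : b.val % 364 = e.val % 364 := h1
    have h364 := pow364 hθ
    have h3 : θ ^ b.val = θ ^ e.val ∨ θ ^ b.val = - θ ^ e.val := by
      rcases (show b.val = e.val ∨ b.val = e.val + 364 ∨ e.val = b.val + 364 by omega) with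
        h4 | h4 | h4
      · left; rw [h4]
      · right; rw [h4, pow_add, h364]; ring
      · right; rw [h4, pow_add, h364]; ring
    rcases h3 with h4 | h4
    · rw [h4]
    · rw [h4]
      constructor
      · intro h5
        have := orb_neg h5
        rwa [neg_neg] at this
      · exact orb_neg
  · constructor
    · intro h5
      have := orb_add h5 (-v)
      rwa [map_neg, ← hv, show θ ^ b.val + -(θ ^ b.val - θ ^ e.val) = θ ^ e.val by ring] at this
    · intro h5
      have := orb_add h5 v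
      rwa [← hv, show θ ^ e.val + (θ ^ b.val - θ ^ e.val) = θ ^ b.val by ring] at this
  · have hr : ringChar (ZMod 3) = 3 := ZMod.ringChar_zmod_n 3
    rw [hr] at hi
    have h2 : θ ^ b.val = (θ ^ e.val) ^ 3 ^ i := by
      rw [← pow_mul]
      apply (Pool.Agent.V11307.GF.pow_eq_iff (order hθ) (by norm_num) _ _).2
      change b.val ≡ e.val * 3 ^ i [MOD 728]
      rw [← ZMod.natCast_eq_natCast_iff]
      have e1 : ((b.val : ℕ) : ZMod 728) = b := ZMod.natCast_zmod_val (n := 728) b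
      have e2 : ((e.val : ℕ) : ZMod 728) = e := ZMod.natCast_zmod_val (n := 728) e
      push_cast
      rw [e1, e2, mul_comm]
      exact hi
    rw [h2]
    constructor
    · apply orb_pow'
      rw [← pow_mul, mul_comm, pow_mul, pow_succ, h728, one_mul]
    · exact fun h5 => orb_pow h5 i

end

/-- **Theorem.** Q1 is false: its statement fails for `h = 6` and `q = 3`. (For the generator `θ` of
the multiplicative group of the field with 729 elements with `θ^6 = θ^5 + 1`, the Bose sets of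
`163` and `253` are affinely equivalent, but `163` and `253` are not equivalent.) -/
theorem result : ¬ BoseStatement 6 3 := by
  intro hB
  have hpr : Fact (Nat.Prime 3) := ⟨Nat.prime_three⟩
  set K := GaloisField 3 6 with hK
  have hcard : Nat.card K = 3 ^ 6 := GaloisField.card 3 6 (by norm_num)
  have hfin : Finite K := Nat.finite_of_card_ne_zero (by rw [hcard]; norm_num)
  have hft : Fintype K := Fintype.ofFinite K
  have hchar : CharP K 3 := inferInstance
  obtain ⟨θ, hθ⟩ := exists_theta K (by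
    rw [← Nat.card_eq_fintype_card, hcard]; norm_num)
  have hord := order hθ
  have hgen := Pool.Agent.V11307.GF.gen θ (by rw [hord, hcard]; norm_num)
    (by rw [hcard]; norm_num)
  have h1 := hB (ZMod 3) K (by simp) hcard θ hgen (163 : ZMod 728) (253 : ZMod 728)
    (Pool.Agent.V11307.GF.full_degree (F := ZMod 3) (q := 3) (by simp) hcard (by norm_num)
      hgen.2 (m := 67) (by
        have hv : (163 : ZMod 728).val = 163 := rfl
        rw [hv, ← pow_mul, show 163 * 67 = 728 * 15 + 1 by norm_num, pow_add, pow_mul, pow728 hθ]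
        ring))
    (Pool.Agent.V11307.GF.full_degree (F := ZMod 3) (q := 3) (by simp) hcard (by norm_num)
      hgen.2 (m := 141) (by
        have hv : (253 : ZMod 728).val = 253 := rfl
        rw [hv, ← pow_mul, show 253 * 141 = 728 * 49 + 1 by norm_num, pow_add, pow_mul,
          pow728 hθ]
        ring))
    (aff hθ)
  have h2 : ∀ b e : ZMod (3 ^ 6 - 1), Relation.EqvGen (Step (ZMod 3) K θ 3 6) b e →
      (θ ^ b.val ∈ Orb θ ↔ θ ^ e.val ∈ Orb θ) := by
    intro b e h
    induction h with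
    | rel x y h => exact step_iff hθ h
    | refl x => exact Iff.rfl
    | symm x y _ ih => exact ih.symm
    | trans x y z _ _ ih1 ih2 => exact ih1.trans ih2
  exact not_mem hθ ((h2 _ _ h1).1 self_mem)

end Pool.Agent.Results.MP_50e481_nt.BoseFalse
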