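import Mathlib
import Pool.Agent.V11307.GF

set_option autoImplicit false
set_option linter.unusedSectionVars false

/-!
# Affinely equivalent generalized Singer sets that are not trivially equivalent

For `q = 2` and `h = 9` there are admissible `b, e` such that `Singer_9(2, b)` and
`Singer_9(2, e)` are affinely equivalent although `b` and `e` are not related by the equivalence
relation generated by the conditions (iv) - (vii).
-/

namespace Pool.Agent.Results.MP_50e481_nt.SingerFalse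

section Defs

variable (F K : Type) [Field F] [Field K] [Algebra F K]

/-- `θ` generates the multiplicative group of `K`. -/
def IsGen (θ : K) : Prop := θ ≠ 0 ∧ ∀ x : K, x ≠ 0 → ∃ n : ℕ, x = θ ^ n

/-- `b` is admissible: `θ ^ b` has degree `n` over `F`. -/
def Admissible (θ : K) (n N : ℕ) (b : ZMod N) : Prop :=
  (minpoly F (θ ^ b.val)).natDegree = n

/-- The Singer set: all `a` in `ℤ/M` with `θ ^ a = u θ ^ b + v` for some `u, v ∈ F`. -/
def Singer (θ : K) (M N : ℕ) (b : ZMod N) : Set (ZMod M) :=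
  {a | ∃ u v : F, θ ^ a.val = algebraMap F K u * θ ^ b.val + algebraMap F K v}

/-- Affine equivalence of subsets of `ℤ/M`: `A₂ = d A₁ + s` with `d` a unit of `ℤ/M`. -/
def AffEquiv (M : ℕ) (A₁ A₂ : Set (ZMod M)) : Prop :=
  ∃ (d : (ZMod M)ˣ) (s : ZMod M), A₂ = {x | ∃ a ∈ A₁, x = d * a + s}

/-- One of the conditions (iv) - (vii) of the problem holds for the admissible `b`, `e`:
(iv) `b ≡ e` modulo `M = (q^(h+1) - 1)/(q - 1)`; (v) `b ≡ p^i e` modulo `q^(h+1) - 1` for some
`i ≥ 0`, where `p` is the characteristic of `F`; (vi) `θ^b - θ^e ∈ F`;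
(vii) `r θ^b + t θ^(e+b) + w θ^e ∈ F` for some `r, t, w ∈ F` with `(r, t) ≠ (0, 0)`. -/
def Step (θ : K) (q h : ℕ) (b e : ZMod (q ^ (h + 1) - 1)) : Prop :=
  Admissible F K θ (h + 1) (q ^ (h + 1) - 1) b ∧ Admissible F K θ (h + 1) (q ^ (h + 1) - 1) e ∧
  (b.val ≡ e.val [MOD (q ^ (h + 1) - 1) / (q - 1)] ∨
    (∃ i : ℕ, b = (ringChar F : ZMod (q ^ (h + 1) - 1)) ^ i * e) ∨
    (∃ v : F, θ ^ b.val - θ ^ e.val = algebraMap F K v) ∨
    ∃ r t w v : F, (r, t) ≠ (0, 0) ∧
      algebraMap F K r * θ ^ b.val + algebraMap F K t * θ ^ (e.val + b.val) +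
        algebraMap F K w * θ ^ e.val = algebraMap F K v)

end Defs

/-- The statement of Q2 for the pair `(h, q)`: for every field `F` with `q` elements, every
extension field `K` with `q ^ (h + 1)` elements, every generator `θ` of the multiplicative group
of `K` and all admissible `b`, `e`, if the Singer sets of `b` and `e` (subsets of `ℤ/M`,
`M = (q^(h+1) - 1)/(q - 1)`) are affinely equivalent, then `b` and `e` are related by the
equivalence relation generated by (iv) - (vii). -/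
def SingerStatement (h q : ℕ) : Prop :=
  ∀ (F K : Type) [Field F] [Field K] [Algebra F K], Nat.card F = q → Nat.card K = q ^ (h + 1) →
    ∀ θ : K, IsGen K θ → ∀ b e : ZMod (q ^ (h + 1) - 1),
      Admissible F K θ (h + 1) (q ^ (h + 1) - 1) b →
      Admissible F K θ (h + 1) (q ^ (h + 1) - 1) e →
      AffEquiv ((q ^ (h + 1) - 1) / (q - 1))
        (Singer F K θ ((q ^ (h + 1) - 1) / (q - 1)) (q ^ (h + 1) - 1) b)
        (Singer F K θ ((q ^ (h + 1) - 1) / (q - 1)) (q ^ (h + 1) - 1) e) →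
      Relation.EqvGen (Step F K θ q h) b e

/-! ### The field with 1024 elements -/

/-- multiplication by `x` on residues modulo `x^10 + x^7 + 1`, coded in base 2 -/
def st (n : ℕ) : ℕ :=
  n / 512 + 2 * (n % 64) + 128 * ((n / 64 % 2 + n / 512) % 2) + 256 * (n / 128 % 4)

def pw : ℕ → ℕ
  | 0 => 1
  | k + 1 => st (pw k)

section

variable {K : Type} [Field K] [CharP K 2] (θ : K)

def ev (n : ℕ) : K :=
  ((n % 2 : ℕ) : K) + ((n / 2 % 2 : ℕ) : K) * θ + ((n / 4 % 2 : ℕ) : K) * θ ^ 2 +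
    ((n / 8 % 2 : ℕ) : K) * θ ^ 3 + ((n / 16 % 2 : ℕ) : K) * θ ^ 4 +
    ((n / 32 % 2 : ℕ) : K) * θ ^ 5 + ((n / 64 % 2 : ℕ) : K) * θ ^ 6 +
    ((n / 128 % 2 : ℕ) : K) * θ ^ 7 + ((n / 256 % 2 : ℕ) : K) * θ ^ 8 +
    ((n / 512 % 2 : ℕ) : K) * θ ^ 9

lemma cast_mod (m : ℕ) : ((m % 2 : ℕ) : K) = (m : K) := by
  conv_rhs => rw [← Nat.mod_add_div m 2]
  have h2 : ((2 : ℕ) : K) = 0 := CharP.cast_eq_zero K 2
  push_cast
  push_cast at h2
  rw [h2]; ring

lemma digs : ∀ n < 1024, st n % 2 = n / 512 % 2 ∧ st n / 2 % 2 = n % 2 ∧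
    st n / 4 % 2 = n / 2 % 2 ∧ st n / 8 % 2 = n / 4 % 2 ∧ st n / 16 % 2 = n / 8 % 2 ∧
    st n / 32 % 2 = n / 16 % 2 ∧ st n / 64 % 2 = n / 32 % 2 ∧
    st n / 128 % 2 = (n / 64 % 2 + n / 512 % 2) % 2 ∧ st n / 256 % 2 = n / 128 % 2 ∧
    st n / 512 % 2 = n / 256 % 2 := by decide +kernel

lemma st_lt : ∀ n < 1024, st n < 1024 := by decide +kernel

lemma pw_lt (k : ℕ) : pw k < 1024 := by
  induction k with
  | zero => simp [pw]
  | succ k ih => exact st_lt _ ih

lemma ev_st (hθ : θ ^ 10 = 1 + θ ^ 7) (n : ℕ) (hn : n < 1024) : ev θ (st n) = θ * ev θ n := by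
  obtain ⟨d0, d1, d2, d3, d4, d5, d6, d7, d8, d9⟩ := digs n hn
  unfold ev
  rw [d0, d1, d2, d3, d4, d5, d6, d7, d8, d9, cast_mod (n / 64 % 2 + n / 512 % 2)]
  push_cast
  linear_combination (-((n / 512 % 2 : ℕ) : K)) * hθ

lemma ev_pw (hθ : θ ^ 10 = 1 + θ ^ 7) (k : ℕ) : θ ^ k = ev θ (pw k) := by
  induction k with
  | zero => simp [pw, ev]
  | succ k ih => rw [pow_succ, mul_comm, ih, pw, ev_st θ hθ _ (pw_lt k)]

lemma ev_of {k c : ℕ} (hθ : θ ^ 10 = 1 + θ ^ 7) (h : pw k = c) : θ ^ k = ev θ c := by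
  rw [ev_pw θ hθ, h]

end

section

variable {K : Type} [Field K] [CharP K 2] {θ : K}

lemma two : (2 : K) = 0 := by
  have h2 : ((2 : ℕ) : K) = 0 := CharP.cast_eq_zero K 2
  exact_mod_cast h2

lemma add_self (x : K) : x + x = 0 := by linear_combination x * two (K := K)

lemma pow1023 (hθ : θ ^ 10 = 1 + θ ^ 7) : θ ^ 1023 = 1 := by
  rw [ev_of θ hθ (show pw 1023 = 1 by decide +kernel)]; norm_num [ev]

lemma theta_ne (hθ : θ ^ 10 = 1 + θ ^ 7) : θ ≠ 0 := by
  rintro rfl
  norm_num at hθ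

lemma z1 (hθ : θ ^ 10 = 1 + θ ^ 7) : θ ^ 431 + 1 = θ ^ 493 := by
  rw [ev_of θ hθ (show pw 431 = 1021 by decide +kernel),
    ev_of θ hθ (show pw 493 = 1020 by decide +kernel)]
  have := two (K := K)
  norm_num [ev]
  linear_combination this

lemma z2 (hθ : θ ^ 10 = 1 + θ ^ 7) : θ ^ 469 + 1 = θ ^ 806 := by
  rw [ev_of θ hθ (show pw 469 = 668 by decide +kernel),
    ev_of θ hθ (show pw 806 = 669 by decide +kernel)]
  norm_num [ev]
  ring

lemma z3 (hθ : θ ^ 10 = 1 + θ ^ 7) : θ ^ 62 + 1 = θ ^ 592 := by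
  rw [ev_of θ hθ (show pw 62 = 63 by decide +kernel),
    ev_of θ hθ (show pw 592 = 62 by decide +kernel)]
  have := two (K := K)
  norm_num [ev]
  linear_combination this

lemma z4 (hθ : θ ^ 10 = 1 + θ ^ 7) : θ ^ 961 + 1 = θ ^ 530 := by
  rw [ev_of θ hθ (show pw 961 = 822 by decide +kernel),
    ev_of θ hθ (show pw 530 = 823 by decide +kernel)]
  norm_num [ev]
  ring

lemma z5 (hθ : θ ^ 10 = 1 + θ ^ 7) : θ ^ 341 + 1 = θ ^ 682 := by
  rw [ev_of θ hθ (show pw 341 = 399 by decide +kernel),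
    ev_of θ hθ (show pw 682 = 398 by decide +kernel)]
  have := two (K := K)
  norm_num [ev]
  linear_combination this

lemma z6 (hθ : θ ^ 10 = 1 + θ ^ 7) : θ ^ 93 + 1 = θ ^ 459 := by
  rw [ev_of θ hθ (show pw 93 = 142 by decide +kernel),
    ev_of θ hθ (show pw 459 = 143 by decide +kernel)]
  norm_num [ev]
  ring

lemma z7 (hθ : θ ^ 10 = 1 + θ ^ 7) : θ ^ 33 + 1 = θ ^ 396 := by
  rw [ev_of θ hθ (show pw 33 = 559 by decide +kernel),
    ev_of θ hθ (show pw 396 = 558 by decide +kernel)]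
  have := two (K := K)
  norm_num [ev]
  linear_combination this

lemma order (hθ : θ ^ 10 = 1 + θ ^ 7) : orderOf θ = 1023 := by
  apply orderOf_eq_of_pow_and_pow_div_prime (by norm_num) (pow1023 hθ)
  intro p hp hd
  have h0 := theta_ne hθ
  have h2 := two (K := K)
  have : p ∈ Nat.primeFactors 1023 := Nat.mem_primeFactors.2 ⟨hp, hd, by norm_num⟩
  have hpf : Nat.primeFactors 1023 = {3, 11, 31} := by decide +kernel
  rw [hpf] at this
  simp only [Finset.mem_insert, Finset.mem_singleton] at this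
  rcases this with rfl | rfl | rfl
  · norm_num
    intro h
    exact pow_ne_zero 682 h0 (by linear_combination -z5 hθ + h + h2)
  · norm_num
    intro h
    exact pow_ne_zero 459 h0 (by linear_combination -z6 hθ + h + h2)
  · norm_num
    intro h
    exact pow_ne_zero 396 h0 (by linear_combination -z7 hθ + h + h2)

end

/-- there is a suitable `θ` in the field with 1024 elements -/
lemma exists_theta (K : Type) [Field K] [Fintype K] [CharP K 2] (hK : Fintype.card K = 1024) :
    ∃ θ : K, θ ^ 10 = 1 + θ ^ 7 := by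
  have hL : CharP (AlgebraicClosure K) 2 := charP_of_injective_algebraMap
    (algebraMap K (AlgebraicClosure K)).injective 2
  obtain ⟨x, hx⟩ := IsAlgClosed.exists_root
    (Polynomial.X ^ 10 - Polynomial.X ^ 7 - 1 : Polynomial (AlgebraicClosure K)) (by
      have : (Polynomial.X ^ 10 - Polynomial.X ^ 7 - 1 : Polynomial (AlgebraicClosure K)).degree
        = 10 := by compute_degree!
      rw [this]; norm_num)
  rw [Polynomial.IsRoot.def] at hx
  simp only [Polynomial.eval_sub, Polynomial.eval_pow, Polynomial.eval_X,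
    Polynomial.eval_one] at hx
  have hx' : x ^ 10 = 1 + x ^ 7 := by linear_combination hx
  obtain ⟨y, hy⟩ := Pool.Agent.V11307.GF.descend hK x (by
    rw [pow_succ, pow1023 hx', one_mul])
  refine ⟨y, ?_⟩
  apply (algebraMap K (AlgebraicClosure K)).injective
  rw [map_pow, map_add, map_pow, map_one, hy, hx']

/-! ### The counterexample -/

section

variable {K : Type} [Field K] [Algebra (ZMod 2) K] [CharP K 2] {θ : K}

lemma zero_one (v : ZMod 2) : v = 0 ∨ v = 1 := by
  revert v; decide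

lemma am (v : ZMod 2) : algebraMap (ZMod 2) K v = 0 ∨ algebraMap (ZMod 2) K v = 1 := by
  rcases zero_one v with rfl | rfl
  · left; exact map_zero _
  · right; exact map_one _

lemma val_eq {a : ZMod 1023} {n : ℕ} (hθ : θ ^ 10 = 1 + θ ^ 7) (hn : n < 1023)
    (h : θ ^ a.val = θ ^ n) : a = (n : ZMod 1023) := by
  have h1 := Pool.Agent.V11307.GF.pow_inj (order hθ) (ZMod.val_lt a) hn h
  rw [← h1, ZMod.natCast_zmod_val]

lemma mem_one (hθ : θ ^ 10 = 1 + θ ^ 7) (a : ZMod 1023) :
    a ∈ Singer (ZMod 2) K θ 1023 1023 431 ↔ a = 0 ∨ a = 431 ∨ a = 493 := by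
  have hv : (431 : ZMod 1023).val = 431 := rfl
  have h0 := theta_ne hθ
  constructor
  · rintro ⟨u, v, hv'⟩
    rw [hv] at hv'
    rcases am (K := K) u with hu | hu <;> rcases am (K := K) v with hw | hw <;>
      rw [hu, hw] at hv'
    · exact absurd hv' (by rw [zero_mul, add_zero]; exact pow_ne_zero _ h0)
    · left
      exact val_eq (n := 0) hθ (by norm_num) (by rw [hv']; ring)
    · right; left
      exact val_eq (n := 431) hθ (by norm_num) (by rw [hv']; ring)
    · right; right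
      exact val_eq (n := 493) hθ (by norm_num) (by rw [hv', ← z1 hθ]; ring)
  · rintro (rfl | rfl | rfl)
    · exact ⟨0, 1, by rw [map_zero, map_one, zero_mul, zero_add, ZMod.val_zero, pow_zero]⟩
    · exact ⟨1, 0, by rw [map_zero, map_one, one_mul, add_zero]⟩
    · exact ⟨1, 1, by rw [map_one, one_mul, hv, z1 hθ]; rfl⟩

lemma mem_two (hθ : θ ^ 10 = 1 + θ ^ 7) (a : ZMod 1023) :
    a ∈ Singer (ZMod 2) K θ 1023 1023 469 ↔ a = 0 ∨ a = 469 ∨ a = 806 := by
  have hv : (469 : ZMod 1023).val = 469 := rfl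
  have h0 := theta_ne hθ
  constructor
  · rintro ⟨u, v, hv'⟩
    rw [hv] at hv'
    rcases am (K := K) u with hu | hu <;> rcases am (K := K) v with hw | hw <;>
      rw [hu, hw] at hv'
    · exact absurd hv' (by rw [zero_mul, add_zero]; exact pow_ne_zero _ h0)
    · left
      exact val_eq (n := 0) hθ (by norm_num) (by rw [hv']; ring)
    · right; left
      exact val_eq (n := 469) hθ (by norm_num) (by rw [hv']; ring)
    · right; right
      exact val_eq (n := 806) hθ (by norm_num) (by rw [hv', ← z2 hθ]; ring)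
  · rintro (rfl | rfl | rfl)
    · exact ⟨0, 1, by rw [map_zero, map_one, zero_mul, zero_add, ZMod.val_zero, pow_zero]⟩
    · exact ⟨1, 0, by rw [map_zero, map_one, one_mul, add_zero]⟩
    · exact ⟨1, 1, by rw [map_one, one_mul, hv, z2 hθ]; rfl⟩

lemma aff (hθ : θ ^ 10 = 1 + θ ^ 7) :
    AffEquiv 1023 (Singer (ZMod 2) K θ 1023 1023 431) (Singer (ZMod 2) K θ 1023 1023 469) := by
  refine ⟨ZMod.unitOfCoprime 53 (by norm_num), 469, ?_⟩
  ext x
  rw [mem_two hθ, Set.mem_ofPred_eq, ZMod.coe_unitOfCoprime]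
  have e1 : ((53 : ℕ) : ZMod 1023) * 493 + 469 = 0 := by decide
  have e2 : ((53 : ℕ) : ZMod 1023) * 0 + 469 = 469 := by decide
  have e3 : ((53 : ℕ) : ZMod 1023) * 431 + 469 = 806 := by decide
  constructor
  · rintro (rfl | rfl | rfl)
    · exact ⟨493, (mem_one hθ _).2 (Or.inr (Or.inr rfl)), e1.symm⟩
    · exact ⟨0, (mem_one hθ _).2 (Or.inl rfl), e2.symm⟩
    · exact ⟨431, (mem_one hθ _).2 (Or.inr (Or.inl rfl)), e3.symm⟩
  · rintro ⟨a, ha, rfl⟩
    rcases (mem_one hθ _).1 ha with rfl | rfl | rfl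
    · exact Or.inr (Or.inl e2)
    · exact Or.inr (Or.inr e3)
    · exact Or.inl e1

/-- the orbit of `θ ^ 431` under `x ↦ x + 1`, `x ↦ 1 / x` and the Frobenius map -/
def Orb (θ : K) : Set K := {x | ∃ i n : ℕ,
  (n = 431 ∨ n = 493 ∨ n = 62 ∨ n = 592 ∨ n = 530 ∨ n = 961) ∧ x = (θ ^ n) ^ 2 ^ i}

lemma frob_add_one (x : K) (i : ℕ) : x ^ 2 ^ i + 1 = (x + 1) ^ 2 ^ i := by
  have hpr : Fact (Nat.Prime 2) := ⟨Nat.prime_two⟩
  rw [add_pow_char_pow, one_pow]

lemma orb_add_one (hθ : θ ^ 10 = 1 + θ ^ 7) {x : K} (h : x ∈ Orb θ) : x + 1 ∈ Orb θ := by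
  obtain ⟨i, n, hn, rfl⟩ := h
  have h2 := two (K := K)
  rw [frob_add_one]
  rcases hn with rfl | rfl | rfl | rfl | rfl | rfl
  · exact ⟨i, 493, by norm_num, by rw [z1 hθ]⟩
  · exact ⟨i, 431, by norm_num, by rw [← z1 hθ, add_assoc, add_self, add_zero]⟩
  · exact ⟨i, 592, by norm_num, by rw [z3 hθ]⟩
  · exact ⟨i, 62, by norm_num, by rw [← z3 hθ, add_assoc, add_self, add_zero]⟩
  · exact ⟨i, 961, by norm_num, by rw [← z4 hθ, add_assoc, add_self, add_zero]⟩
  · exact ⟨i, 530, by norm_num, by rw [z4 hθ]⟩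

lemma orb_add_one_iff (hθ : θ ^ 10 = 1 + θ ^ 7) (x : K) : x ∈ Orb θ ↔ x + 1 ∈ Orb θ := by
  refine ⟨orb_add_one hθ, fun h => ?_⟩
  have := orb_add_one hθ h
  rwa [add_assoc, add_self, add_zero] at this

lemma inv_pow' (hθ : θ ^ 10 = 1 + θ ^ 7) {a b : ℕ} (hab : a + b = 1023) (i : ℕ) :
    ((θ ^ a) ^ 2 ^ i)⁻¹ = (θ ^ b) ^ 2 ^ i := by
  apply inv_eq_of_mul_eq_one_right
  rw [← mul_pow, ← pow_add, hab, pow1023 hθ, one_pow]

lemma orb_inv (hθ : θ ^ 10 = 1 + θ ^ 7) {x : K} (h : x ∈ Orb θ) : x⁻¹ ∈ Orb θ := by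
  obtain ⟨i, n, hn, rfl⟩ := h
  rcases hn with rfl | rfl | rfl | rfl | rfl | rfl
  · exact ⟨i, 592, by norm_num, inv_pow' hθ (by norm_num) i⟩
  · exact ⟨i, 530, by norm_num, inv_pow' hθ (by norm_num) i⟩
  · exact ⟨i, 961, by norm_num, inv_pow' hθ (by norm_num) i⟩
  · exact ⟨i, 431, by norm_num, inv_pow' hθ (by norm_num) i⟩
  · exact ⟨i, 493, by norm_num, inv_pow' hθ (by norm_num) i⟩
  · exact ⟨i, 62, by norm_num, inv_pow' hθ (by norm_num) i⟩

lemma orb_inv_iff (hθ : θ ^ 10 = 1 + θ ^ 7) (x : K) : x ∈ Orb θ ↔ x⁻¹ ∈ Orb θ := by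
  refine ⟨orb_inv hθ, fun h => ?_⟩
  have := orb_inv hθ h
  rwa [inv_inv] at this

lemma orb_pow {x : K} (h : x ∈ Orb θ) (j : ℕ) : x ^ 2 ^ j ∈ Orb θ := by
  obtain ⟨i, n, hn, rfl⟩ := h
  exact ⟨i + j, n, hn, by rw [pow_add, pow_mul]⟩

lemma orb_pow' {x : K} (hx : x ^ 1024 = x) (i : ℕ) (h : x ^ 2 ^ i ∈ Orb θ) : x ∈ Orb θ := by
  have h1 := orb_pow h (9 * i)
  rw [← pow_mul, ← pow_add, show i + 9 * i = 10 * i by ring, pow_mul,
    show (2 ^ 10 : ℕ) = 1024 by norm_num] at h1
  have h2 : ∀ j : ℕ, x ^ 1024 ^ j = x := by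
    intro j
    induction j with
    | zero => simp
    | succ j ih => rw [pow_succ, pow_mul, ih, hx]
  rwa [h2] at h1

lemma self_mem : θ ^ 431 ∈ Orb θ := ⟨0, 431, Or.inl rfl, by simp⟩

lemma two_pow_mod (i : ℕ) : 2 ^ i % 1023 = 1 ∨ 2 ^ i % 1023 = 2 ∨ 2 ^ i % 1023 = 4 ∨
    2 ^ i % 1023 = 8 ∨ 2 ^ i % 1023 = 16 ∨ 2 ^ i % 1023 = 32 ∨ 2 ^ i % 1023 = 64 ∨
    2 ^ i % 1023 = 128 ∨ 2 ^ i % 1023 = 256 ∨ 2 ^ i % 1023 = 512 := by
  have h1 : 2 ^ i % 1023 = 2 ^ (i % 10) % 1023 := by
    conv_lhs => rw [← Nat.div_add_mod i 10]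
    rw [pow_add, pow_mul, Nat.mul_mod, Nat.pow_mod]
    norm_num
  rw [h1]
  have h2 : i % 10 < 10 := Nat.mod_lt _ (by norm_num)
  interval_cases (i % 10) <;> norm_num

lemma not_mem (hθ : θ ^ 10 = 1 + θ ^ 7) : θ ^ 469 ∉ Orb θ := by
  rintro ⟨i, n, hn, h⟩
  rw [← pow_mul] at h
  have h4 : 469 % 1023 = (n * 2 ^ i) % 1023 :=
    (Pool.Agent.V11307.GF.pow_eq_iff (order hθ) (by norm_num) _ _).1 h
  have h5 : (n * 2 ^ i) % 1023 = (n * (2 ^ i % 1023)) % 1023 := by
    rw [Nat.mul_mod]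
    simp
  rw [h5] at h4
  rcases two_pow_mod i with h | h | h | h | h | h | h | h | h | h <;> rw [h] at h4 <;>
    rcases hn with rfl | rfl | rfl | rfl | rfl | rfl <;> omega

/-- admissible elements are different from `1` -/
lemma adm_ne_one {b : ZMod 1023} (h : Admissible (ZMod 2) K θ 10 1023 b) : θ ^ b.val ≠ 1 := by
  intro h1
  unfold Admissible at h
  rw [h1, minpoly.one] at h
  have : (Polynomial.X - 1 : Polynomial (ZMod 2)).natDegree = 1 := by
    rw [← Polynomial.C_1, Polynomial.natDegree_X_sub_C]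
  omega

lemma step_iff (hθ : θ ^ 10 = 1 + θ ^ 7) {b e : ZMod (2 ^ (9 + 1) - 1)}
    (h : Step (ZMod 2) K θ 2 9 b e) : θ ^ b.val ∈ Orb θ ↔ θ ^ e.val ∈ Orb θ := by
  have h1023 := pow1023 hθ
  have h0 := theta_ne hθ
  have h2 := two (K := K)
  have hbv : b.val < 1023 := ZMod.val_lt (n := 1023) b
  have hev : e.val < 1023 := ZMod.val_lt (n := 1023) e
  obtain ⟨ha, ha', h1⟩ := h
  have hb1 : θ ^ b.val ≠ 1 := adm_ne_one ha
  have he1 : θ ^ e.val ≠ 1 := adm_ne_one ha'
  have hb0 : θ ^ b.val ≠ 0 := pow_ne_zero _ h0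
  have he0 : θ ^ e.val ≠ 0 := pow_ne_zero _ h0
  rcases h1 with h1 | ⟨i, hi⟩ | ⟨v, hv⟩ | ⟨r, t, w, v, hrt, hv⟩
  · have h2 : b.val % 1023 = e.val % 1023 := h1
    rw [Nat.mod_eq_of_lt hbv, Nat.mod_eq_of_lt hev] at h2
    rw [h2]
  · have hr : ringChar (ZMod 2) = 2 := ZMod.ringChar_zmod_n 2
    rw [hr] at hi
    have h2 : θ ^ b.val = (θ ^ e.val) ^ 2 ^ i := by
      rw [← pow_mul]
      apply (Pool.Agent.V11307.GF.pow_eq_iff (order hθ) (by norm_num) _ _).2
      change b.val ≡ e.val * 2 ^ i [MOD 1023]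
      rw [← ZMod.natCast_eq_natCast_iff]
      have e1 : ((b.val : ℕ) : ZMod 1023) = b := ZMod.natCast_zmod_val (n := 1023) b
      have e2 : ((e.val : ℕ) : ZMod 1023) = e := ZMod.natCast_zmod_val (n := 1023) e
      push_cast
      rw [e1, e2, mul_comm]
      exact hi
    rw [h2]
    constructor
    · apply orb_pow'
      rw [← pow_mul, mul_comm, pow_mul, pow_succ, h1023, one_mul]
    · exact fun h5 => orb_pow h5 i
  · generalize θ ^ b.val = x at *
    generalize θ ^ e.val = y at *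
    rcases am (K := K) v with hw | hw <;> rw [hw] at hv
    · rw [show x = y by linear_combination hv]
    · rw [show y = x + 1 by linear_combination -hv - h2]
      exact orb_add_one_iff hθ x
  · rw [pow_add θ] at hv
    generalize θ ^ b.val = x at *
    generalize θ ^ e.val = y at *
    have hx1 : x + 1 ≠ 0 := fun h => hb1 (by linear_combination h - h2)
    have hy1 : y + 1 ≠ 0 := fun h => he1 (by linear_combination h - h2)
    have key1 : ∀ z : K, z = 0 ∨ z = 1 → z ≠ 0 → z = 1 := fun z h h' => h.resolve_left h'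
    rcases zero_one t with rfl | rfl
    · rcases zero_one r with rfl | rfl
      · exact absurd rfl hrt
      · rw [map_one, map_zero] at hv
        rcases am (K := K) w with hw | hw <;> rw [hw] at hv
        · exfalso
          rcases am (K := K) v with hv2 | hv2 <;> rw [hv2] at hv
          · exact hb0 (by linear_combination hv)
          · exact hb1 (by linear_combination hv)
        · rcases am (K := K) v with hv2 | hv2 <;> rw [hv2] at hv
          · rw [show x = y by linear_combination hv - y * h2]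
          · rw [show y = x + 1 by linear_combination hv - h2 * x]
            exact orb_add_one_iff hθ x
    · rw [map_one] at hv
      rcases zero_one r with rfl | rfl
      · rw [map_zero] at hv
        rcases am (K := K) w with hw | hw <;> rw [hw] at hv
        · have h3 : y * x = 1 := by
            apply key1 _ _ (mul_ne_zero he0 hb0)
            rcases am (K := K) v with hv2 | hv2 <;> rw [hv2] at hv
            · left; linear_combination hv
            · right; linear_combination hv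
          rw [show y = x⁻¹ from eq_inv_of_mul_eq_one_left h3]
          exact orb_inv_iff hθ x
        · have h3 : y * (x + 1) = 1 := by
            apply key1 _ _ (mul_ne_zero he0 hx1)
            rcases am (K := K) v with hv2 | hv2 <;> rw [hv2] at hv
            · left; linear_combination hv
            · right; linear_combination hv
          rw [show y = (x + 1)⁻¹ from eq_inv_of_mul_eq_one_left h3, ← orb_inv_iff hθ]
          exact orb_add_one_iff hθ x
      · rw [map_one] at hv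
        rcases am (K := K) w with hw | hw <;> rw [hw] at hv
        · have h3 : x * (y + 1) = 1 := by
            apply key1 _ _ (mul_ne_zero hb0 hy1)
            rcases am (K := K) v with hv2 | hv2 <;> rw [hv2] at hv
            · left; linear_combination hv
            · right; linear_combination hv
          rw [show x = (y + 1)⁻¹ from eq_inv_of_mul_eq_one_left h3, ← orb_inv_iff hθ]
          exact (orb_add_one_iff hθ y).symm
        · have h3 : (y + 1) * (x + 1) = 1 := by
            apply key1 _ _ (mul_ne_zero hy1 hx1)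
            rcases am (K := K) v with hv2 | hv2 <;> rw [hv2] at hv
            · right; linear_combination hv
            · left; linear_combination hv + h2
          have h4 : y + 1 = (x + 1)⁻¹ := eq_inv_of_mul_eq_one_left h3
          rw [orb_add_one_iff hθ y, h4, ← orb_inv_iff hθ]
          exact orb_add_one_iff hθ x

end

/-- **Theorem.** Q2 is false: its statement fails for `h = 9` and `q = 2`. (For the generator `θ` of
the multiplicative group of the field with 1024 elements with `θ^10 = θ^7 + 1`, the Singer sets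
of `431` and `469` are affinely equivalent, but `431` and `469` are not equivalent.) -/
theorem result : ¬ SingerStatement 9 2 := by
  intro hB
  have hpr : Fact (Nat.Prime 2) := ⟨Nat.prime_two⟩
  set K := GaloisField 2 10 with hK
  have hcard : Nat.card K = 2 ^ 10 := GaloisField.card 2 10 (by norm_num)
  have hfin : Finite K := Nat.finite_of_card_ne_zero (by rw [hcard]; norm_num)
  have hft : Fintype K := Fintype.ofFinite K
  have hchar : CharP K 2 := inferInstance
  obtain ⟨θ, hθ⟩ := exists_theta K (by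
    rw [← Nat.card_eq_fintype_card, hcard]; norm_num)
  have hord := order hθ
  have hgen := Pool.Agent.V11307.GF.gen θ (by rw [hord, hcard]; norm_num)
    (by rw [hcard]; norm_num)
  have h1 := hB (ZMod 2) K (by simp) hcard θ hgen (431 : ZMod 1023) (469 : ZMod 1023)
    (Pool.Agent.V11307.GF.full_degree (F := ZMod 2) (q := 2) (by simp) hcard (by norm_num)
      hgen.2 (m := 413) (by
        have hv : (431 : ZMod 1023).val = 431 := rfl
        rw [hv, ← pow_mul, show 431 * 413 = 1023 * 174 + 1 by norm_num, pow_add, pow_mul,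
          pow1023 hθ]
        ring))
    (Pool.Agent.V11307.GF.full_degree (F := ZMod 2) (q := 2) (by simp) hcard (by norm_num)
      hgen.2 (m := 349) (by
        have hv : (469 : ZMod 1023).val = 469 := rfl
        rw [hv, ← pow_mul, show 469 * 349 = 1023 * 160 + 1 by norm_num, pow_add, pow_mul,
          pow1023 hθ]
        ring))
    (aff hθ)
  have h2 : ∀ b e : ZMod (2 ^ (9 + 1) - 1), Relation.EqvGen (Step (ZMod 2) K θ 2 9) b e →
      (θ ^ b.val ∈ Orb θ ↔ θ ^ e.val ∈ Orb θ) := by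
    intro b e h
    induction h with
    | rel x y h => exact step_iff hθ h
    | refl x => exact Iff.rfl
    | symm x y _ ih => exact ih.symm
    | trans x y z _ _ ih1 ih2 => exact ih1.trans ih2
  exact not_mem hθ ((h2 _ _ h1).1 self_mem)

end Pool.Agent.Results.MP_50e481_nt.SingerFalse
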